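import Pool.Agent.H47.SQ.Targets3

/-!
# One more variable is asked (row XAS of the board `ppz_modules`)
-/

set_option autoImplicit false

namespace Pool.Agent.H34.SQ3

open Finset Pool.Agent.H97.RK Pool.Agent.H97.RL Pool.Agent.H41.SS Pool.Agent.H47.SR

theorem pf_XAS (hHAL : Pool.Agent.H41.SS.T_HAL) (hXCL : Pool.Agent.H47.SR.T_XCL) :
    Pool.Agent.H47.SR.T_XAS := by
  classical
  intro n k m F D j₀ hj x y A W J v hSta hJ hyx hCnt
  have hins : insert v (A ∪ W) = insert v A ∪ W := by
    rw [Finset.insert_union]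
  by_cases hv : v ∈ A ∪ W
  · have heq : insert v A ∪ W = A ∪ W := by
      rw [← hins, Finset.insert_eq_of_mem hv]
    refine ⟨y, W, J, Finset.Subset.refl _, fun _ _ h => h, fun _ _ => rfl, hyx, ?_, hJ⟩
    refine ⟨?_, ?_, ?_, ?_, hSta.lt, hSta.crd⟩
    · intro c hc i
      rw [heq]
      exact hSta.mem c hc i
    · intro c hc i hi
      rw [Finset.mem_sdiff, Finset.mem_insert] at hi
      apply hSta.fls c hc i
      rw [Finset.mem_sdiff]
      refine ⟨?_, hi.2⟩
      rcases hi.1 with h | h
      · rw [h] at hi ⊢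
        rcases Finset.mem_union.mp hv with h' | h'
        · exact h'
        · exact absurd h' hi.2
      · exact h
    · intro c hc
      rw [heq]
      exact hSta.sat c hc
    · intro S hS hal
      rw [heq] at hal ⊢
      exact hSta.inv S hS hal
  · rw [Finset.mem_union, not_or] at hv
    have hsub : ∀ u, u ∈ A ∪ W → u ∈ insert v A ∪ W := by
      intro u hu
      rw [← hins]
      exact Finset.mem_insert_of_mem hu
    have hcrd : W.card ≤ 2 * J.card := by
      have := hSta.crd
      omega
    have h := hXCL n k m F D j₀ hj x y (insert v A) W J hyx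
      (fun c hc i => hsub _ (hSta.mem c hc i)) ?_ ?_ hJ hcrd hCnt ?_
    · obtain ⟨y', W', J', h1, h0, h2, h3, h4, h5⟩ := h
      refine ⟨y', W', J', h1, h0, ?_, h3, h4, h5⟩
      rw [hins]
      exact h2
    · intro c hc i hi
      rw [Finset.mem_sdiff, Finset.mem_insert] at hi
      apply hSta.fls c hc i
      rw [Finset.mem_sdiff]
      refine ⟨?_, hi.2⟩
      rcases hi.1 with h | h
      · exfalso
        have := hSta.mem c hc i
        rw [h, Finset.mem_union] at this
        tauto
      · exact h
    · intro c hc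
      obtain ⟨i, hi, hi'⟩ := hSta.sat c hc
      exact ⟨i, hsub _ hi, hi'⟩
    · intro S hS hal
      obtain ⟨z, hz, hz'⟩ := hHAL n k m F D 0 y A W J hSta v S hS.le
        (fun c hc i hi => hal c hc i (hsub _ hi))
      refine ⟨z, ?_, hz'⟩
      rw [← hins]
      exact hz

end Pool.Agent.H34.SQ3
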