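import Pool.Agent.H47.SQ.Targets3

/-!
# The closure for solutions (row XCY of the board `ppz_modules`)
-/

set_option autoImplicit false

namespace Pool.Agent.H34.SQ3

open Finset Pool.Agent.H97.RK Pool.Agent.H41.SS Pool.Agent.H47.SR

theorem pf_XCY : Pool.Agent.H47.SR.T_XCY := by
  classical
  intro n k m F D j₀ y A W J hmem hfls hJ hWc hCnt
  let P : Finset (Fin n) × Finset (Fin m) → Prop := fun q =>
    W ⊆ q.1 ∧ (∀ v ∈ A, v ∈ q.1 → v ∈ W) ∧ (∀ c ∈ q.2, ∀ i, (F c i).1 ∈ A ∪ q.1) ∧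
      (∀ c ∈ q.2, Al F y (A \ q.1) c) ∧ q.2.card < j₀ ∧ q.1.card ≤ 2 * q.2.card
  obtain ⟨⟨W', J'⟩, hq, hmax⟩ := Finset.exists_max_image (univ.filter P)
    (fun q => q.2.card)
    ⟨(W, J), by
      rw [Finset.mem_filter]
      exact ⟨Finset.mem_univ _, Finset.Subset.refl _, fun v _ h => h, hmem, hfls, hJ, hWc⟩⟩
  obtain ⟨b1, b0, b2, b3, b4, b5⟩ : P (W', J') := (Finset.mem_filter.mp hq).2
  dsimp only at b1 b0 b2 b3 b4 b5
  refine ⟨W', J', b1, b0, b2, b3, b4, b5, ?_⟩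
  intro S hSD hS
  by_contra hcon
  rw [not_le] at hcon
  obtain ⟨G, hG⟩ : ∃ G, G = VS F S \ (A ∪ W') := ⟨_, rfl⟩
  rw [← hG] at hcon
  have hVS : ∀ c ∈ S, ∀ i, (F c i).1 ∈ VS F S := by
    intro c hc i
    unfold VS vF
    rw [Finset.mem_biUnion]
    exact ⟨c, hc, Finset.mem_image.mpr ⟨i, Finset.mem_univ _, rfl⟩⟩
  have hdisj : Disjoint J' S := by
    rw [Finset.disjoint_left]
    intro c hc hc'
    exact (hS c hc').1 hc
  have hcJ : (J' ∪ S).card = J'.card + S.card := Finset.card_union_of_disjoint hdisj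
  have hcW : (W' ∪ G).card ≤ W'.card + G.card := Finset.card_union_le W' G
  have hmem' : ∀ c ∈ J' ∪ S, ∀ i, (F c i).1 ∈ A ∪ (W' ∪ G) := by
    intro c hc i
    rw [← Finset.union_assoc, Finset.mem_union]
    rcases Finset.mem_union.mp hc with h | h
    · exact Or.inl (b2 c h i)
    · by_cases hb : (F c i).1 ∈ A ∪ W'
      · exact Or.inl hb
      · right
        rw [hG, Finset.mem_sdiff]
        exact ⟨hVS c h i, hb⟩
  have hfls' : ∀ c ∈ J' ∪ S, Al F y (A \ (W' ∪ G)) c := by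
    intro c hc i hi
    rw [Finset.mem_sdiff, Finset.mem_union, not_or] at hi
    rcases Finset.mem_union.mp hc with h | h
    · exact b3 c h i (Finset.mem_sdiff.mpr ⟨hi.1, hi.2.1⟩)
    · exact (hS c h).2 i hi.1
  have h0 : ∀ v ∈ A, v ∈ W' ∪ G → v ∈ W := by
    intro v hv h
    rcases Finset.mem_union.mp h with h | h
    · exact b0 v hv h
    · rw [hG, Finset.mem_sdiff, Finset.mem_union, not_or] at h
      exact absurd hv h.2.1
  have hcard : (W' ∪ G).card ≤ 2 * (J' ∪ S).card := by omega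
  have hsmall : (J' ∪ S).card < j₀ :=
    hCnt (W' ∪ G) (J' ∪ S) (b1.trans Finset.subset_union_left) h0 hmem' hfls' hcard (by omega)
  have hP : P (W' ∪ G, J' ∪ S) :=
    ⟨b1.trans Finset.subset_union_left, h0, hmem', hfls', hsmall, hcard⟩
  have h := hmax (W' ∪ G, J' ∪ S) (Finset.mem_filter.mpr ⟨Finset.mem_univ _, hP⟩)
  dsimp only at h
  omega

end Pool.Agent.H34.SQ3
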